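import Mathlib
import Pool.Agent.Y16.AF.StmB
import Pool.Agent.Y427.AF.Base
import Pool.Agent.Y427.AF.Spr

/-! Sums of squares of the Green functions, sharp form. -/

namespace Pool.Agent.Y604.AF

open Pool.Agent.Y16.AF Pool.Agent.Y427.AF

theorem af_spr2 : S_SPR2 := by
  refine ⟨504960, ?_⟩
  intro L hL ω h0 h3 h1
  have hs : 0 < Real.sinh ω := Real.sinh_pos_iff.2 h0
  have hsω : ω ≤ Real.sinh ω := Real.self_le_sinh_iff.2 h0.le
  have hL0 : (0 : ℝ) < L := by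
    have : (2 : ℝ) ≤ L := by exact_mod_cast hL
    linarith
  -- the sum times `4 sinh ω ^ 2`
  have err : |∑ t ∈ Finset.range L, ∑ s ∈ Finset.range L,
      (((t : ℝ) - s) ^ 2 * ((2 * Real.sinh ω * GN L ω t s) ^ 2 +
        (2 * Real.sinh ω * GD L ω t s) ^ 2) - 2 * (((t : ℝ) - s) ^ 2 * EE ω t s ^ 2))| ≤
      2016000 / ω ^ 4 := by
    refine (Finset.abs_sum_le_sum_abs _ _).trans ?_
    refine (Finset.sum_le_sum fun t _ => Finset.abs_sum_le_sum_abs _ _).trans ?_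
    have : ∀ t ∈ Finset.range L, ∀ s ∈ Finset.range L,
        |((t : ℝ) - s) ^ 2 * ((2 * Real.sinh ω * GN L ω t s) ^ 2 +
          (2 * Real.sinh ω * GD L ω t s) ^ 2) - 2 * (((t : ℝ) - s) ^ 2 * EE ω t s ^ 2)| ≤
          40320 / ω ^ 2 * MM L ω t s := by
      intro t ht s hs'
      have ht' := (Finset.mem_range.1 ht).le
      have hs'' := (Finset.mem_range.1 hs').le
      have b2 := BB_le h0 ht' hs''
      have g1 := sq_err (GN_le h0 h3 h1 ht' hs'') (EE_pos ω t s).le (EE_le h0 t s) b2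
      have g2 := sq_err (GD_le h0 h1 ht' hs'') (EE_pos ω t s).le (EE_le h0 t s) b2
      have e : ((t : ℝ) - s) ^ 2 * ((2 * Real.sinh ω * GN L ω t s) ^ 2 +
          (2 * Real.sinh ω * GD L ω t s) ^ 2) - 2 * (((t : ℝ) - s) ^ 2 * EE ω t s ^ 2) =
          ((t : ℝ) - s) ^ 2 * (((2 * Real.sinh ω * GN L ω t s) ^ 2 - EE ω t s ^ 2) +
            ((2 * Real.sinh ω * GD L ω t s) ^ 2 - EE ω t s ^ 2)) := by ring
      rw [e, abs_mul, abs_of_nonneg (sq_nonneg _)]
      have g3 := sq_BB_le h0 ht' hs''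
      calc ((t : ℝ) - s) ^ 2 * |((2 * Real.sinh ω * GN L ω t s) ^ 2 - EE ω t s ^ 2) +
            ((2 * Real.sinh ω * GD L ω t s) ^ 2 - EE ω t s ^ 2)| ≤
          ((t : ℝ) - s) ^ 2 * (2520 * BB L ω t s + 2520 * BB L ω t s) := by
            gcongr
            exact (abs_add_le _ _).trans (add_le_add g1 g2)
        _ = 5040 * (((t : ℝ) - s) ^ 2 * BB L ω t s) := by ring
        _ ≤ 5040 * (8 / ω ^ 2 * MM L ω t s) := by gcongr
        _ = 40320 / ω ^ 2 * MM L ω t s := by ring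
    refine (Finset.sum_le_sum fun t ht => Finset.sum_le_sum fun s hs' => this t ht s hs').trans ?_
    simp_rw [← Finset.mul_sum]
    have h5 := sum_MM (L := L) h0 h3
    calc _ ≤ 40320 / ω ^ 2 * (50 / ω ^ 2) := by gcongr
      _ = 2016000 / ω ^ 4 := by field_simp; norm_num
  have hm := main_sq (L := L) h0 h3
  have key : ∑ t ∈ Finset.range L, ∑ s ∈ Finset.range L,
      (((t : ℝ) - s) ^ 2 * ((2 * Real.sinh ω * GN L ω t s) ^ 2 +
        (2 * Real.sinh ω * GD L ω t s) ^ 2) - 2 * (((t : ℝ) - s) ^ 2 * EE ω t s ^ 2)) =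
      4 * Real.sinh ω ^ 2 * VV L ω -
      2 * ∑ t ∈ Finset.range L, ∑ s ∈ Finset.range L, ((t : ℝ) - s) ^ 2 * EE ω t s ^ 2 := by
    unfold VV
    simp_rw [Finset.mul_sum, ← Finset.sum_sub_distrib]
    refine Finset.sum_congr rfl fun t _ => Finset.sum_congr rfl fun s _ => ?_
    ring
  rw [key] at err
  set A := VV L ω with hA
  set M := ∑ t ∈ Finset.range L, ∑ s ∈ Finset.range L, ((t : ℝ) - s) ^ 2 * EE ω t s ^ 2 with hM
  -- first comparison
  have c1 : |4 * Real.sinh ω ^ 2 * A - L * Real.cosh ω / Real.sinh ω ^ 3| ≤ 2019840 / ω ^ 4 := by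
    have e : 2 * (L : ℝ) * (Real.cosh ω / (4 * Real.sinh ω ^ 3)) =
        L * Real.cosh ω / Real.sinh ω ^ 3 / 2 := by field_simp; norm_num
    rw [e] at hm
    have e2 : 2019840 / ω ^ 4 = 2016000 / ω ^ 4 + 2 * (1920 / ω ^ 4) := by ring
    rw [e2]
    rw [abs_le] at hm err ⊢
    constructor <;> linarith [hm.1, hm.2, err.1, err.2]
  have e : 4 * Real.sinh ω ^ 2 * A - L * Real.cosh ω / Real.sinh ω ^ 3 =
      4 * Real.sinh ω ^ 2 * (A - L * (Real.cosh ω / (4 * Real.sinh ω ^ 5))) := by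
    field_simp
  rw [e, abs_mul, abs_of_nonneg (by positivity)] at c1
  have h6 : 4 * ω ^ 2 * |A - L * (Real.cosh ω / (4 * Real.sinh ω ^ 5))| ≤ 2019840 / ω ^ 4 := by
    refine le_trans ?_ c1
    gcongr
  rw [le_div_iff₀ (by positivity)] at h6 ⊢
  nlinarith

end Pool.Agent.Y604.AF
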