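import Mathlib
import Pool.Agent.Y16.AF.StmB
import Pool.Agent.Y427.AF.Base
import Pool.Agent.Y427.AF.Spr
import Pool.Agent.Y427.AF.Spy

/-! Sums of products of the Green functions, sharp form. -/

namespace Pool.Agent.Y604.AF

open Pool.Agent.Y16.AF Pool.Agent.Y427.AF

lemma EE_symm (ω : ℝ) (t s : ℕ) : EE ω t s = EE ω s t := by
  unfold EE
  rw [abs_sub_comm]

lemma row_nb {L : ℕ} {ω : ℝ} (h0 : 0 < ω) (h3 : ω ≤ 3) {t : ℕ} (ht : t < L) :
    |∑ s ∈ Finset.range L, EE ω t s * EE ω (t + 1) s - 1 / Real.sinh ω| ≤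
      4 / ω * (bl ω t + br L ω t) := by
  obtain ⟨hx, hx1, hx2⟩ := x_facts h0 h3
  have hs : Real.sinh ω ≠ 0 := (Real.sinh_pos_iff.2 h0).ne'
  have hq := (Real.exp_pos (-ω)).ne'
  have hc : 1 / Real.sinh ω = 2 * Real.exp (-ω) / (1 - Real.exp (-(2 * ω))) := by
    rw [hx1]
    field_simp
  obtain ⟨m, hm⟩ : ∃ m, L = (t + 1) + m := ⟨L - (t + 1), by omega⟩
  have hsum : ∑ s ∈ Finset.range L, EE ω t s * EE ω (t + 1) s =
      Real.exp (-ω) * (∑ r ∈ Finset.range (t + 1), Real.exp (-(2 * ω)) ^ r) +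
        Real.exp (-ω) * (∑ r ∈ Finset.range m, Real.exp (-(2 * ω)) ^ r) := by
    rw [hm, Finset.sum_range_add]
    congr 1
    · rw [← Finset.sum_range_reflect (fun r => Real.exp (-(2 * ω)) ^ r), Finset.mul_sum]
      apply Finset.sum_congr rfl
      intro s hs
      have hs' := Finset.mem_range.1 hs
      have e1 : ((t + 1 - 1 - s : ℕ) : ℝ) = t - s := by
        rw [Nat.add_sub_cancel, Nat.cast_sub (by omega)]
      have e2 : (s : ℝ) ≤ t := by exact_mod_cast (by omega : s ≤ t)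
      unfold EE
      rw [← Real.exp_nat_mul, ← Real.exp_add, ← Real.exp_add, e1, abs_of_nonneg (by linarith),
        abs_of_nonneg (by push_cast; linarith)]
      congr 1
      push_cast
      ring
    · rw [Finset.mul_sum]
      apply Finset.sum_congr rfl
      intro x _
      have e0 : (0 : ℝ) ≤ x := Nat.cast_nonneg x
      unfold EE
      rw [← Real.exp_nat_mul, ← Real.exp_add, ← Real.exp_add,
        abs_of_nonpos (by push_cast; linarith), abs_of_nonpos (by push_cast; linarith)]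
      congr 1
      push_cast
      ring
  have hx0 : 0 < Real.exp (-(2 * ω)) := Real.exp_pos _
  rw [hc, hsum]
  have p1 : Real.exp (-ω) * Real.exp (-(2 * ω)) ^ (t + 1) ≤ bl ω t := by
    unfold bl
    rw [← Real.exp_nat_mul, ← Real.exp_add]
    apply Real.exp_le_exp.2
    have : (0 : ℝ) ≤ t := by positivity
    push_cast
    nlinarith
  have p2 : Real.exp (-ω) * Real.exp (-(2 * ω)) ^ m ≤ br L ω t := by
    unfold br
    rw [← Real.exp_nat_mul, ← Real.exp_add, hm]
    apply Real.exp_le_exp.2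
    have : (0 : ℝ) ≤ m := by positivity
    push_cast
    nlinarith
  set x := Real.exp (-(2 * ω)) with hxd
  set q := Real.exp (-ω) with hqd
  have hq0 : 0 < q := Real.exp_pos _
  have hy : 0 < 1 - x := by linarith [div_pos h0 (by norm_num : (0 : ℝ) < 4)]
  have hi : 1 / (1 - x) ≤ 4 / ω := by
    rw [div_le_div_iff₀ hy h0]; linarith
  have hne : x ≠ 1 := by intro h; rw [h] at hy; linarith
  rw [geom_sum_eq hne, geom_sum_eq hne]
  have e : q * ((x ^ (t + 1) - 1) / (x - 1)) + q * ((x ^ m - 1) / (x - 1)) -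
      2 * q / (1 - x) = -((q * x ^ (t + 1) + q * x ^ m) * (1 / (1 - x))) := by
    have h' : 1 - x ≠ 0 := hy.ne'
    have e1 : x - 1 = -(1 - x) := by ring
    rw [e1]
    field_simp
    ring
  rw [e, abs_neg, abs_of_nonneg (by positivity)]
  calc (q * x ^ (t + 1) + q * x ^ m) * (1 / (1 - x)) ≤ (bl ω t + br L ω t) * (4 / ω) := by
        have := bl_pos ω t
        have := br_pos L ω t
        gcongr
    _ = _ := mul_comm _ _

lemma main_nb {L : ℕ} {ω : ℝ} (h0 : 0 < ω) (h3 : ω ≤ 3) :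
    |∑ t ∈ Finset.range L, ∑ s ∈ Finset.range L, EE ω t s * EE ω (t + 1) s -
      L * (1 / Real.sinh ω)| ≤ 40 / ω ^ 2 := by
  have h1 : ∑ t ∈ Finset.range L, ∑ s ∈ Finset.range L, EE ω t s * EE ω (t + 1) s -
      L * (1 / Real.sinh ω) =
      ∑ t ∈ Finset.range L, (∑ s ∈ Finset.range L, EE ω t s * EE ω (t + 1) s -
        (1 / Real.sinh ω)) := by
    rw [Finset.sum_sub_distrib, Finset.sum_const, Finset.card_range, nsmul_eq_mul]
  rw [h1]
  refine (Finset.abs_sum_le_sum_abs _ _).trans ?_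
  refine (Finset.sum_le_sum fun t ht => row_nb h0 h3 (Finset.mem_range.1 ht)).trans ?_
  rw [← Finset.mul_sum, Finset.sum_add_distrib]
  have a1 := sum_bl h0 h3 L
  have a2 := sum_br (L := L) h0 h3
  calc 4 / ω * (∑ t ∈ Finset.range L, bl ω t + ∑ t ∈ Finset.range L, br L ω t) ≤
      4 / ω * (5 / ω + 5 / ω) := by gcongr
    _ = 40 / ω ^ 2 := by field_simp; norm_num

lemma main_nb' {L : ℕ} {ω : ℝ} (h0 : 0 < ω) (h3 : ω ≤ 3) :
    |∑ t ∈ Finset.range L, ∑ s ∈ Finset.range L, EE ω t s * EE ω t (s + 1) -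
      L * (1 / Real.sinh ω)| ≤ 40 / ω ^ 2 := by
  have h := main_nb (L := L) h0 h3
  rw [Finset.sum_comm] at h
  have e : ∑ t ∈ Finset.range L, ∑ s ∈ Finset.range L, EE ω t s * EE ω t (s + 1) =
      ∑ t ∈ Finset.range L, ∑ s ∈ Finset.range L, EE ω s t * EE ω (s + 1) t := by
    refine Finset.sum_congr rfl fun t _ => Finset.sum_congr rfl fun s _ => ?_
    rw [EE_symm ω t s, EE_symm ω t (s + 1)]
  rw [e]
  exact h

/-- Comparison of the product with the product of the functions of the line. -/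
lemma nb2 {L : ℕ} {ω : ℝ} (h0 : 0 < ω) (h3 : ω ≤ 3) (h1 : 1 ≤ ω * L) {t s i j : ℕ} (ht : t < L)
    (hs : s < L) (hi : i ≤ 1) (hj : j ≤ 1) :
    |(2 * Real.sinh ω * GN L ω t s) * (2 * Real.sinh ω * GD L ω (t + i) (s + j)) -
      EE ω t s * EE ω (t + i) (s + j)| ≤ 20000 * MM L ω t s := by
  have g1 := GN_le h0 h3 h1 ht.le hs.le
  have g2 := GD_le h0 h1 (show t + i ≤ L by omega) (show s + j ≤ L by omega)
  have b1 := BB_le_MM h0 ht.le hs.le
  have b2 := BB_le h0 (show t + i ≤ L by omega) (show s + j ≤ L by omega)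
  have e0 := EE_pos ω t s
  have e1 := EE_le h0 t s
  have e0' := EE_pos ω (t + i) (s + j)
  have e1' := EE_le h0 (t + i) (s + j)
  have hi' : (i : ℝ) ≤ 1 := by exact_mod_cast hi
  have hj' : (j : ℝ) ≤ 1 := by exact_mod_cast hj
  have hi0 : (0 : ℝ) ≤ i := by positivity
  have hj0 : (0 : ℝ) ≤ j := by positivity
  -- boundary term at the neighbour
  have b3 : BB L ω (t + i) (s + j) ≤ 441 * BB L ω t s := by
    unfold BB
    have k1 : Real.exp (-(ω * (((t + i : ℕ) : ℝ) + ((s + j : ℕ) : ℝ)))) ≤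
        441 * Real.exp (-(ω * ((t : ℝ) + s))) := by
      have : Real.exp (-(ω * (((t + i : ℕ) : ℝ) + ((s + j : ℕ) : ℝ)))) ≤
          Real.exp (-(ω * ((t : ℝ) + s))) := by
        apply Real.exp_le_exp.2
        push_cast
        nlinarith
      have := Real.exp_pos (-(ω * ((t : ℝ) + s)))
      linarith
    have k2 : Real.exp (-(ω * (2 * L - ((t + i : ℕ) : ℝ) - ((s + j : ℕ) : ℝ)))) ≤
        441 * Real.exp (-(ω * (2 * (L : ℝ) - t - s))) := by
      have a1 : Real.exp (-(ω * (2 * L - ((t + i : ℕ) : ℝ) - ((s + j : ℕ) : ℝ)))) ≤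
          Real.exp ω * Real.exp ω * Real.exp (-(ω * (2 * (L : ℝ) - t - s))) := by
        rw [← Real.exp_add, ← Real.exp_add]
        apply Real.exp_le_exp.2
        push_cast
        nlinarith
      have a2 := expω h3
      have a3 := Real.exp_pos ω
      have a4 := Real.exp_pos (-(ω * (2 * (L : ℝ) - t - s)))
      calc _ ≤ _ := a1
        _ ≤ 21 * 21 * Real.exp (-(ω * (2 * (L : ℝ) - t - s))) := by gcongr
        _ = _ := by ring
    linarith
  have hB0 := BB_pos L ω t s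
  have hG : |2 * Real.sinh ω * GD L ω (t + i) (s + j)| ≤ 71 := by
    rw [abs_le] at g2 ⊢
    constructor <;> linarith [g2.1, g2.2]
  set gn := 2 * Real.sinh ω * GN L ω t s with hgn
  set gd := 2 * Real.sinh ω * GD L ω (t + i) (s + j) with hgd
  have e : gn * gd - EE ω t s * EE ω (t + i) (s + j) = (gn - EE ω t s) * gd +
      EE ω t s * (gd - EE ω (t + i) (s + j)) := by ring
  clear_value gn gd
  rw [e]
  refine (abs_add_le _ _).trans ?_
  rw [abs_mul (gn - EE ω t s) gd, abs_mul (EE ω t s) (gd - _), abs_of_pos e0]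
  have q1 : |gn - EE ω t s| * |gd| ≤ 35 * BB L ω t s * 71 := by gcongr
  have q2 : EE ω t s * |gd - EE ω (t + i) (s + j)| ≤ 1 * (35 * (441 * BB L ω t s)) := by
    gcongr
    exact g2.trans (by gcongr)
  linarith

theorem af_spy2 : S_SPY2 := by
  refine ⟨1000040, ?_⟩
  intro L hL ω h0 h3 h1
  have hs : 0 < Real.sinh ω := Real.sinh_pos_iff.2 h0
  have hsω : ω ≤ Real.sinh ω := Real.self_le_sinh_iff.2 h0.le
  have hL0 : (0 : ℝ) < L := by
    have : (2 : ℝ) ≤ L := by exact_mod_cast hL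
    linarith
  have hm := main_one (L := L) h0 h3
  have hm1 := main_nb (L := L) h0 h3
  have hm2 := main_nb' (L := L) h0 h3
  have hMM := sum_MM (L := L) h0 h3
  set M := ∑ t ∈ Finset.range L, ∑ s ∈ Finset.range L, EE ω t s ^ 2 with hM
  set M1 := ∑ t ∈ Finset.range L, ∑ s ∈ Finset.range L, EE ω t s * EE ω (t + 1) s with hM1
  set M2 := ∑ t ∈ Finset.range L, ∑ s ∈ Finset.range L, EE ω t s * EE ω t (s + 1) with hM2
  have hdiag : ∀ t s : ℕ, EE ω (t + 1) (s + 1) = EE ω t s := by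
    intro t s
    unfold EE
    congr 4
    push_cast
    ring
  -- the sum times `4 sinh ω ^ 2`
  have err : |∑ t ∈ Finset.range L, ∑ s ∈ Finset.range L,
      ((2 * Real.sinh ω * GN L ω t s) * (2 * Real.sinh ω * GD L ω t s) +
        (2 * Real.sinh ω * GN L ω t s) * (2 * Real.sinh ω * GD L ω (t + 1) s) +
        (2 * Real.sinh ω * GN L ω t s) * (2 * Real.sinh ω * GD L ω t (s + 1)) +
        (2 * Real.sinh ω * GN L ω t s) * (2 * Real.sinh ω * GD L ω (t + 1) (s + 1)) -
        (2 * EE ω t s ^ 2 + EE ω t s * EE ω (t + 1) s + EE ω t s * EE ω t (s + 1)))| ≤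
          80000 * (50 / ω ^ 2) := by
    refine (Finset.abs_sum_le_sum_abs _ _).trans ?_
    refine (Finset.sum_le_sum fun t _ => Finset.abs_sum_le_sum_abs _ _).trans ?_
    have : ∀ t ∈ Finset.range L, ∀ s ∈ Finset.range L,
        |(2 * Real.sinh ω * GN L ω t s) * (2 * Real.sinh ω * GD L ω t s) +
        (2 * Real.sinh ω * GN L ω t s) * (2 * Real.sinh ω * GD L ω (t + 1) s) +
        (2 * Real.sinh ω * GN L ω t s) * (2 * Real.sinh ω * GD L ω t (s + 1)) +
        (2 * Real.sinh ω * GN L ω t s) * (2 * Real.sinh ω * GD L ω (t + 1) (s + 1)) -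
        (2 * EE ω t s ^ 2 + EE ω t s * EE ω (t + 1) s + EE ω t s * EE ω t (s + 1))| ≤
          80000 * MM L ω t s := by
      intro t ht s hs'
      have ht' := (Finset.mem_range.1 ht)
      have hs'' := (Finset.mem_range.1 hs')
      have n1 := nb2 h0 h3 h1 ht' hs'' (i := 0) (j := 0) (by norm_num) (by norm_num)
      have n2 := nb2 h0 h3 h1 ht' hs'' (i := 1) (j := 0) (by norm_num) (by norm_num)
      have n3 := nb2 h0 h3 h1 ht' hs'' (i := 0) (j := 1) (by norm_num) (by norm_num)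
      have n4 := nb2 h0 h3 h1 ht' hs'' (i := 1) (j := 1) (by norm_num) (by norm_num)
      simp only [add_zero] at n1 n2 n3
      rw [hdiag] at n4
      rw [abs_le] at n1 n2 n3 n4 ⊢
      constructor
      · linarith [n1.1, n2.1, n3.1, n4.1]
      · linarith [n1.2, n2.2, n3.2, n4.2]
    refine (Finset.sum_le_sum fun t ht => Finset.sum_le_sum fun s hs' => this t ht s hs').trans ?_
    simp_rw [← Finset.mul_sum]
    gcongr
  have key : ∑ t ∈ Finset.range L, ∑ s ∈ Finset.range L,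
      ((2 * Real.sinh ω * GN L ω t s) * (2 * Real.sinh ω * GD L ω t s) +
        (2 * Real.sinh ω * GN L ω t s) * (2 * Real.sinh ω * GD L ω (t + 1) s) +
        (2 * Real.sinh ω * GN L ω t s) * (2 * Real.sinh ω * GD L ω t (s + 1)) +
        (2 * Real.sinh ω * GN L ω t s) * (2 * Real.sinh ω * GD L ω (t + 1) (s + 1)) -
        (2 * EE ω t s ^ 2 + EE ω t s * EE ω (t + 1) s + EE ω t s * EE ω t (s + 1))) =
      4 * Real.sinh ω ^ 2 * YY L ω - (2 * M + M1 + M2) := by
    rw [hM, hM1, hM2]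
    unfold YY
    simp_rw [Finset.mul_sum, ← Finset.sum_add_distrib, ← Finset.sum_sub_distrib]
    refine Finset.sum_congr rfl fun t _ => Finset.sum_congr rfl fun s _ => ?_
    ring
  rw [key] at err
  set A := YY L ω with hA
  have c1 : |4 * Real.sinh ω ^ 2 * A - (2 * (L * (Real.cosh ω / Real.sinh ω)) +
      2 * (L * (1 / Real.sinh ω)))| ≤ 4000160 * (1 / ω ^ 2) := by
    have e1 : 50 / ω ^ 2 = 50 * (1 / ω ^ 2) := by ring
    have e2 : 40 / ω ^ 2 = 40 * (1 / ω ^ 2) := by ring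
    rw [e1] at err
    rw [e2] at hm hm1 hm2
    rw [abs_le] at hm hm1 hm2 err ⊢
    constructor <;> linarith [hm.1, hm.2, hm1.1, hm1.2, hm2.1, hm2.2, err.1, err.2]
  have e : 4 * Real.sinh ω ^ 2 * A - (2 * (L * (Real.cosh ω / Real.sinh ω)) +
      2 * (L * (1 / Real.sinh ω))) =
      4 * Real.sinh ω ^ 2 * (A - L * ((Real.cosh ω + 1) / (2 * Real.sinh ω ^ 3))) := by
    field_simp
    ring
  rw [e, abs_mul, abs_of_nonneg (by positivity)] at c1
  have h6 : 4 * ω ^ 2 * |A - L * ((Real.cosh ω + 1) / (2 * Real.sinh ω ^ 3))| ≤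
      4000160 * (1 / ω ^ 2) := by
    refine le_trans ?_ c1
    gcongr
  have h7 : |A - L * ((Real.cosh ω + 1) / (2 * Real.sinh ω ^ 3))| ≤
      (4000160 * (1 / ω ^ 2)) / (4 * ω ^ 2) := by
    rw [le_div_iff₀ (by positivity)]
    linarith
  refine h7.trans (le_of_eq ?_)
  field_simp
  norm_num

end Pool.Agent.Y604.AF
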